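import Pool.Agent.Y969.GP.Def

set_option autoImplicit false

/-!
# Near orthogonality over the box: auxiliary facts
-/

open Finset Filter Topology MeasureTheory Complex
open Pool.Agent.Y969.GP (ht lam FR PS mB)

namespace Pool.Agent.Y953.SX

theorem norm_cexp (x : ℝ) : ‖cexp (I * (x : ℂ))‖ = 1 := by
  rw [mul_comm]
  exact Complex.norm_exp_ofReal_mul_I x

theorem card_FR (Z : ℕ) : (FR Z).card ≤ Z ^ 2 := by
  have h1 : (FR Z).card ≤ (Finset.Icc 1 Z ×ˢ Finset.Icc 1 Z).card :=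
    Finset.card_le_card ((Finset.filter_subset _ _).trans (Finset.filter_subset _ _))
  rw [Finset.card_product, Nat.card_Icc] at h1
  rw [pow_two]
  simpa using h1

/-- the integral of a character over an interval -/
theorem int_bound {U x : ℝ} (hU : 0 ≤ U) (hx : x ≠ 0) :
    ‖∫ c in Set.Icc 0 U, cexp (I * ((c * x : ℝ) : ℂ))‖ ≤ 2 / |x| := by
  have hc : (I * (x : ℂ)) ≠ 0 := mul_ne_zero I_ne_zero (by exact_mod_cast hx)
  have h1 : (∫ c in Set.Icc 0 U, cexp (I * ((c * x : ℝ) : ℂ))) =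
      ∫ c in (0 : ℝ)..U, cexp ((I * (x : ℂ)) * (c : ℂ)) := by
    rw [intervalIntegral.integral_of_le hU, integral_Icc_eq_integral_Ioc]
    refine integral_congr_ae (Eventually.of_forall fun c => ?_)
    dsimp only
    congr 1
    push_cast
    ring
  rw [h1, integral_exp_mul_complex hc, norm_div]
  have h2 : ‖I * (x : ℂ)‖ = |x| := by
    rw [norm_mul, Complex.norm_I, one_mul, Complex.norm_real, Real.norm_eq_abs]
  rw [h2]
  have h3 : ‖cexp (I * (x : ℂ) * ((U : ℝ) : ℂ)) - cexp (I * (x : ℂ) * ((0 : ℝ) : ℂ))‖ ≤ 2 := by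
    have e1 : I * (x : ℂ) * ((U : ℝ) : ℂ) = I * ((x * U : ℝ) : ℂ) := by push_cast; ring
    have e2 : I * (x : ℂ) * ((0 : ℝ) : ℂ) = I * ((0 : ℝ) : ℂ) := by push_cast; ring
    rw [e1, e2]
    refine (norm_sub_le _ _).trans ?_
    rw [norm_cexp, norm_cexp]
    norm_num
  gcongr

theorem int_triv {U x : ℝ} (hU : 0 ≤ U) :
    ‖∫ c in Set.Icc 0 U, cexp (I * ((c * x : ℝ) : ℂ))‖ ≤ U := by
  refine (norm_integral_le_integral_norm _).trans ?_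
  simp only [norm_cexp]
  rw [integral_const]
  simp [hU]

/-- the kernel -/
noncomputable def J {n : ℕ} (U : ℝ) (q q' : Fin n → ℕ × ℕ) : ℂ :=
  ∏ j, ∫ c in Set.Icc 0 U, cexp (I * ((c * (lam (q j) - lam (q' j)) : ℝ) : ℂ))

theorem J_le {n : ℕ} {U : ℝ} (hU : 0 ≤ U) (q q' : Fin n → ℕ × ℕ) : ‖J U q q'‖ ≤ U ^ n := by
  unfold J
  rw [norm_prod]
  calc ∏ j, ‖∫ c in Set.Icc 0 U, cexp (I * ((c * (lam (q j) - lam (q' j)) : ℝ) : ℂ))‖
      ≤ ∏ _j : Fin n, U := Finset.prod_le_prod (fun _ _ => norm_nonneg _) fun j _ => int_triv hU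
    _ = U ^ n := by simp

theorem J_off {n Z : ℕ} {U : ℝ} (hZ : 1 ≤ Z) (hU : 0 < U)
    (hsp : ∀ (X : ℕ) (p q : ℕ × ℕ), p ∈ FR X → q ∈ FR X → p ≠ q →
      1 / (2 * (X : ℝ)) ≤ |lam p - lam q|)
    {q q' : Fin n → ℕ × ℕ} (hq : ∀ j, q j ∈ FR Z) (hq' : ∀ j, q' j ∈ FR Z) (hne : q ≠ q') :
    ‖J U q q'‖ ≤ 4 * Z * U ^ n / U := by
  obtain ⟨j, hj⟩ := Function.ne_iff.1 hne
  have hZ' : (0 : ℝ) < Z := by exact_mod_cast hZ
  have h1 := hsp Z (q j) (q' j) (hq j) (hq' j) hj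
  have h2 : (0 : ℝ) < 1 / (2 * (Z : ℝ)) := by positivity
  have hx : lam (q j) - lam (q' j) ≠ 0 := fun h0 => by
    rw [h0, abs_zero] at h1
    linarith
  have h3 : ‖∫ c in Set.Icc 0 U, cexp (I * ((c * (lam (q j) - lam (q' j)) : ℝ) : ℂ))‖ ≤
      4 * Z := by
    refine (int_bound hU.le hx).trans ?_
    rw [div_le_iff₀ (abs_pos.2 hx)]
    calc (2 : ℝ) = 4 * Z * (1 / (2 * Z)) := by field_simp; norm_num
      _ ≤ 4 * Z * |lam (q j) - lam (q' j)| := by gcongr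
  unfold J
  rw [norm_prod, ← Finset.mul_prod_erase _ _ (Finset.mem_univ j), le_div_iff₀ hU]
  have h4 : ∏ i ∈ Finset.univ.erase j,
      ‖∫ c in Set.Icc 0 U, cexp (I * ((c * (lam (q i) - lam (q' i)) : ℝ) : ℂ))‖ ≤
      U ^ (n - 1) := by
    calc ∏ i ∈ Finset.univ.erase j,
        ‖∫ c in Set.Icc 0 U, cexp (I * ((c * (lam (q i) - lam (q' i)) : ℝ) : ℂ))‖
        ≤ ∏ _i ∈ Finset.univ.erase j, U :=
          Finset.prod_le_prod (fun _ _ => norm_nonneg _) fun i _ => int_triv hU.le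
      _ = U ^ (n - 1) := by
        rw [Finset.prod_const, Finset.card_erase_of_mem (Finset.mem_univ j), Finset.card_univ,
          Fintype.card_fin]
  have hn : U ^ n = U ^ (n - 1) * U := by
    rw [← pow_succ]
    congr 1
    have := j.pos
    omega
  rw [hn, ← mul_assoc]
  have h5 : (0 : ℝ) ≤ U ^ (n - 1) := by positivity
  gcongr

/-- the inner products -/
theorem inner_eq {n : ℕ} (U : ℝ) (q q' : Fin n → ℕ × ℕ) :
    ∫ c, (∏ j, cexp (I * ((c j * lam (q j) : ℝ) : ℂ))) *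
      (starRingEnd ℂ) (∏ j, cexp (I * ((c j * lam (q' j) : ℝ) : ℂ))) ∂(mB n 0 U) = J U q q' := by
  have h1 : ∀ c : Fin n → ℝ, (∏ j, cexp (I * ((c j * lam (q j) : ℝ) : ℂ))) *
      (starRingEnd ℂ) (∏ j, cexp (I * ((c j * lam (q' j) : ℝ) : ℂ))) =
      ∏ j, cexp (I * ((c j * (lam (q j) - lam (q' j)) : ℝ) : ℂ)) := by
    intro c
    rw [map_prod, ← Finset.prod_mul_distrib]
    refine Finset.prod_congr rfl fun j _ => ?_
    rw [← Complex.exp_conj, ← Complex.exp_add]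
    congr 1
    rw [map_mul, Complex.conj_I, Complex.conj_ofReal]
    push_cast
    ring
  simp only [h1]
  unfold mB J
  exact integral_fintype_prod_eq_prod (μ := fun _ => volume.restrict (Set.Icc (0 : ℝ) U))
    (fun j (c : ℝ) => cexp (I * ((c * (lam (q j) - lam (q' j)) : ℝ) : ℂ)))

theorem cont_prod {n : ℕ} (q : Fin n → ℕ × ℕ) :
    Continuous fun c : Fin n → ℝ => ∏ j, cexp (I * ((c j * lam (q j) : ℝ) : ℂ)) := by
  fun_prop

theorem norm_prod_cexp {n : ℕ} (q : Fin n → ℕ × ℕ) (c : Fin n → ℝ) :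
    ‖∏ j, cexp (I * ((c j * lam (q j) : ℝ) : ℂ))‖ = 1 := by
  rw [norm_prod]
  simp only [norm_cexp, Finset.prod_const_one]

instance finite_mB (n : ℕ) (U : ℝ) : IsFiniteMeasure (mB n 0 U) := by
  unfold mB
  infer_instance

theorem ort (hsp : ∀ (X : ℕ) (p q : ℕ × ℕ), p ∈ FR X → q ∈ FR X → p ≠ q →
      1 / (2 * (X : ℝ)) ≤ |lam p - lam q|) (n Z : ℕ) (U : ℝ) (a : (Fin n → ℕ × ℕ) → ℂ)
    (hZ : 1 ≤ Z) (hU : 4 * (Z : ℝ) ^ (2 * n + 1) ≤ U) :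
    ∫ c, ‖∑ q ∈ Fintype.piFinset (fun _ : Fin n => FR Z), a q *
      ∏ j, cexp (I * ((c j * lam (q j) : ℝ) : ℂ))‖ ^ 2
      ∂(mB n 0 U) ≤ 2 * U ^ n * ∑ q ∈ Fintype.piFinset (fun _ : Fin n => FR Z), ‖a q‖ ^ 2 := by
  set Q := Fintype.piFinset (fun _ : Fin n => FR Z) with hQ
  have hZ' : (0 : ℝ) < Z := by exact_mod_cast hZ
  have hU0 : 0 < U := lt_of_lt_of_le (by positivity) hU
  set E : (Fin n → ℕ × ℕ) → (Fin n → ℝ) → ℂ := fun q c =>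
    ∏ j, cexp (I * ((c j * lam (q j) : ℝ) : ℂ)) with hE
  have hcast : ((∫ c, ‖∑ q ∈ Q, a q * E q c‖ ^ 2 ∂(mB n 0 U) : ℝ) : ℂ) =
      ∑ q ∈ Q, ∑ q' ∈ Q, a q * (starRingEnd ℂ) (a q') * J U q q' := by
    rw [← integral_complex_ofReal]
    have h1 : ∀ c, (((‖∑ q ∈ Q, a q * E q c‖ ^ 2 : ℝ)) : ℂ) =
        ∑ q ∈ Q, ∑ q' ∈ Q, (a q * (starRingEnd ℂ) (a q')) *
          (E q c * (starRingEnd ℂ) (E q' c)) := by
      intro c
      rw [Complex.ofReal_pow, ← Complex.mul_conj', map_sum, Finset.sum_mul_sum]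
      refine Finset.sum_congr rfl fun q _ => Finset.sum_congr rfl fun q' _ => ?_
      rw [map_mul]
      ring
    simp only [h1]
    have hint : ∀ q q', Integrable (fun c => (a q * (starRingEnd ℂ) (a q')) *
        (E q c * (starRingEnd ℂ) (E q' c))) (mB n 0 U) := by
      intro q q'
      refine Integrable.const_mul ?_ _
      refine Integrable.of_bound (C := 1)
        (((cont_prod q).mul (Complex.continuous_conj.comp (cont_prod q'))).aestronglyMeasurable)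
        (Eventually.of_forall fun c => ?_)
      rw [norm_mul, Complex.norm_conj, norm_prod_cexp, norm_prod_cexp]
      norm_num
    rw [integral_finset_sum _ fun q _ => integrable_finset_sum _ fun q' _ => hint q q']
    refine Finset.sum_congr rfl fun q _ => ?_
    rw [integral_finset_sum _ fun q' _ => hint q q']
    refine Finset.sum_congr rfl fun q' _ => ?_
    rw [integral_const_mul, inner_eq]
  have h0 : 0 ≤ ∫ c, ‖∑ q ∈ Q, a q * E q c‖ ^ 2 ∂(mB n 0 U) :=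
    integral_nonneg fun c => by positivity
  have h1 : ∫ c, ‖∑ q ∈ Q, a q * E q c‖ ^ 2 ∂(mB n 0 U) ≤
      ∑ q ∈ Q, ∑ q' ∈ Q, ‖a q‖ * ‖a q'‖ * ‖J U q q'‖ := by
    have e1 : ∫ c, ‖∑ q ∈ Q, a q * E q c‖ ^ 2 ∂(mB n 0 U) =
        ‖((∫ c, ‖∑ q ∈ Q, a q * E q c‖ ^ 2 ∂(mB n 0 U) : ℝ) : ℂ)‖ := by
      rw [Complex.norm_real, Real.norm_of_nonneg h0]
    rw [e1, hcast]
    refine (norm_sum_le _ _).trans (Finset.sum_le_sum fun q _ => ?_)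
    refine (norm_sum_le _ _).trans (Finset.sum_le_sum fun q' _ => ?_)
    rw [norm_mul, norm_mul, Complex.norm_conj]
  have hmem : ∀ q ∈ Q, ∀ j, q j ∈ FR Z := fun q hq j => Fintype.mem_piFinset.1 hq j
  have h2 : ∀ q ∈ Q, ∀ q' ∈ Q, ‖a q‖ * ‖a q'‖ * ‖J U q q'‖ ≤
      (if q = q' then U ^ n * ‖a q‖ ^ 2 else 0) +
        (4 * Z * U ^ n / U) * ((‖a q‖ ^ 2 + ‖a q'‖ ^ 2) / 2) := by
    intro q hq q' hq'
    by_cases hqq : q = q'
    · subst hqq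
      rw [if_pos rfl]
      have e1 := J_le hU0.le q q
      have e2 : 0 ≤ (4 * Z * U ^ n / U) * ((‖a q‖ ^ 2 + ‖a q‖ ^ 2) / 2) := by positivity
      have e3 : ‖a q‖ * ‖a q‖ * ‖J U q q‖ ≤ ‖a q‖ * ‖a q‖ * U ^ n := by gcongr
      nlinarith
    · rw [if_neg hqq, zero_add]
      have e1 := J_off hZ hU0 hsp (hmem q hq) (hmem q' hq') hqq
      have e2 : ‖a q‖ * ‖a q'‖ ≤ (‖a q‖ ^ 2 + ‖a q'‖ ^ 2) / 2 := by
        nlinarith [sq_nonneg (‖a q‖ - ‖a q'‖)]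
      rw [mul_comm (4 * Z * U ^ n / U)]
      exact mul_le_mul e2 e1 (norm_nonneg _) (by positivity)
  have h3 : ∑ q ∈ Q, ∑ q' ∈ Q, ‖a q‖ * ‖a q'‖ * ‖J U q q'‖ ≤
      U ^ n * ∑ q ∈ Q, ‖a q‖ ^ 2 + (4 * Z * U ^ n / U) * ((Q.card : ℝ) * ∑ q ∈ Q, ‖a q‖ ^ 2) := by
    refine (Finset.sum_le_sum fun q hq => Finset.sum_le_sum fun q' hq' => h2 q hq q' hq').trans
      (le_of_eq ?_)
    simp only [Finset.sum_add_distrib, ← Finset.mul_sum, Finset.sum_ite_eq]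
    have e1 : ∑ x ∈ Q, (if x ∈ Q then U ^ n * ‖a x‖ ^ 2 else 0) = U ^ n * ∑ q ∈ Q, ‖a q‖ ^ 2 := by
      rw [Finset.mul_sum]
      exact Finset.sum_congr rfl fun q hq => if_pos hq
    rw [e1]
    congr 1
    congr 1
    have e3 : ∑ q ∈ Q, ‖a q‖ ^ 2 / 2 = (∑ q ∈ Q, ‖a q‖ ^ 2) / 2 := (Finset.sum_div _ _ _).symm
    simp only [add_div, Finset.sum_add_distrib, Finset.sum_const, nsmul_eq_mul]
    rw [← Finset.mul_sum, e3]
    ring
  have hcard : (Q.card : ℝ) ≤ (Z : ℝ) ^ (2 * n) := by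
    have e1 : Q.card = (FR Z).card ^ n := by
      rw [hQ, Fintype.card_piFinset]
      simp
    have e2 : (FR Z).card ^ n ≤ Z ^ (2 * n) := by
      rw [pow_mul]
      exact Nat.pow_le_pow_left (card_FR Z) n
    rw [e1]
    exact_mod_cast e2
  have hA : 0 ≤ ∑ q ∈ Q, ‖a q‖ ^ 2 := Finset.sum_nonneg fun _ _ => by positivity
  have h4 : (4 * Z * U ^ n / U) * ((Q.card : ℝ) * ∑ q ∈ Q, ‖a q‖ ^ 2) ≤
      U ^ n * ∑ q ∈ Q, ‖a q‖ ^ 2 := by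
    calc (4 * Z * U ^ n / U) * ((Q.card : ℝ) * ∑ q ∈ Q, ‖a q‖ ^ 2)
        ≤ (4 * Z * U ^ n / U) * ((Z : ℝ) ^ (2 * n) * ∑ q ∈ Q, ‖a q‖ ^ 2) := by gcongr
      _ = (4 * (Z : ℝ) ^ (2 * n + 1)) * (U ^ n / U * ∑ q ∈ Q, ‖a q‖ ^ 2) := by ring
      _ ≤ U * (U ^ n / U * ∑ q ∈ Q, ‖a q‖ ^ 2) := by gcongr
      _ = U ^ n * ∑ q ∈ Q, ‖a q‖ ^ 2 := by field_simp
  calc ∫ c, ‖∑ q ∈ Q, a q * E q c‖ ^ 2 ∂(mB n 0 U)
      ≤ U ^ n * ∑ q ∈ Q, ‖a q‖ ^ 2 +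
        (4 * Z * U ^ n / U) * ((Q.card : ℝ) * ∑ q ∈ Q, ‖a q‖ ^ 2) := h1.trans h3
    _ ≤ U ^ n * ∑ q ∈ Q, ‖a q‖ ^ 2 + U ^ n * ∑ q ∈ Q, ‖a q‖ ^ 2 := by gcongr
    _ = 2 * U ^ n * ∑ q ∈ Q, ‖a q‖ ^ 2 := by ring

end Pool.Agent.Y953.SX
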