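import Pool.Agent.Y969.SM.Stm
import Pool.Agent.Y953.SX.OrtAux

set_option autoImplicit false

/-!
# Near orthogonality over the box
-/

namespace Pool.Agent.Y953.SX

/-- **ORT.** Near orthogonality of the low frequencies over the box. -/
theorem t_ORT (h : Pool.Agent.Y969.GP.S_SP) : Pool.Agent.Y969.SM.S_ORT :=
  fun n Z U a hZ hU => ort h.1 n Z U a hZ hU

end Pool.Agent.Y953.SX
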